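import Pool.Agent.Q278.EE3

set_option autoImplicit false

/-!
# The self-convolution of the cubes of the central binomial coefficients modulo `p⁴`
-/

namespace Pool.Agent.Results.MP_ee25d9_nt.Full

open Finset

/-- `a_k = ∑_{j=0}^{k} C(2j,j)^3 C(2k-2j,k-j)^3`. -/
def a (k : ℕ) : ℕ := ∑ j ∈ range (k + 1), (2 * j).choose j ^ 3 * (2 * k - 2 * j).choose (k - j) ^ 3

/-- `S(p,r) = ∑_{k=0}^{p^r-1} a_k / 64^k`. -/
def S (p r : ℕ) : ℚ := ∑ k ∈ range (p ^ r), (a k : ℚ) / 64 ^ k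

theorem rr_eq (k : ℕ) : Q278.EE.rr 1 0 k = ((2 * k).choose k : ℚ) / 4 ^ k := by
  induction k with
  | zero => simp [Q278.EE.rr]
  | succ k ih =>
    rw [Q278.EE.rr_succ, ih]
    have h2 := Nat.succ_mul_centralBinom_succ k
    rw [Nat.centralBinom_eq_two_mul_choose, Nat.centralBinom_eq_two_mul_choose] at h2
    have h3 : ((k : ℚ) + 1) * ((2 * (k + 1)).choose (k + 1) : ℚ) =
        2 * (2 * k + 1) * (2 * k).choose k := by exact_mod_cast h2
    have h4 : ((k : ℚ) + 1) ≠ 0 := by positivity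
    have h5 : ((2 * (k + 1)).choose (k + 1) : ℚ) = 2 * (2 * k + 1) * (2 * k).choose k / (k + 1) := by
      rw [eq_div_iff h4]; linear_combination h3
    rw [h5]
    push_cast
    rw [pow_succ]
    field_simp
    ring

/-- **Theorem.** Let `p > 3` be a prime with `p ≡ 3 (mod 4)` and `r ≥ 1`. Then `p⁴` divides the
numerator (in lowest terms) of `S(p,r)`. -/
theorem result (p : ℕ) (hp : p.Prime) (h3 : 3 < p) (h4 : p % 4 = 3) (r : ℕ) (hr : 1 ≤ r) :
    (p : ℤ) ^ 4 ∣ (S p r).num := by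
  have := Fact.mk hp
  apply Q278.EE.num_dvd
  have h1 : S p r = ∑ i ∈ range (p * p ^ (r - 1)), ∑ j ∈ range (p * p ^ (r - 1) - i),
      Q278.EE.rr 1 0 i ^ 3 * Q278.EE.rr 1 0 j ^ 3 := by
    unfold S
    rw [show p ^ r = p * p ^ (r - 1) by rw [← pow_succ']; congr 1; omega,
      ← sum_range_diag_flip _ (fun i j => Q278.EE.rr 1 0 i ^ 3 * Q278.EE.rr 1 0 j ^ 3)]
    apply sum_congr rfl
    intro k _
    unfold a
    push_cast
    rw [sum_div]
    apply sum_congr rfl
    intro j hj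
    have hj' : j ≤ k := by have := mem_range.1 hj; omega
    rw [rr_eq, rr_eq, show 2 * (k - j) = 2 * k - 2 * j by omega]
    have e : (64 : ℚ) ^ k = (4 ^ j) ^ 3 * (4 ^ (k - j)) ^ 3 := by
      rw [← mul_pow, ← pow_add, show j + (k - j) = k by omega, ← pow_mul, mul_comm, pow_mul]
      norm_num
    rw [e, div_pow, div_pow, div_mul_div_comm]
  rw [h1]
  exact Q278.EE.tri_mem (h := (p - 1) / 2) (M := (p - 3) / 4) (by omega) (by omega) (by omega) _

end Pool.Agent.Results.MP_ee25d9_nt.Full
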